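import Pool.Agent.MP_94f265_co.SD.P1Data
import Pool.Agent.MP_94f265_co.SD.Stk

/-!
# The free boxes after phase 1 are the roots of the machine
-/

set_option linter.all false

namespace Pool.Agent.MMS.SD

theorem p1_root : rootR p1D p1B S00 = true := by decide +kernel

end Pool.Agent.MMS.SD
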