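import Pool.Agent.MP_94f265_co.ST.P1
import Pool.Agent.MP_94f265_co.ST.Glue
import Pool.Agent.MP_94f265_co.SD.P1Root

/-!
# Phase 1: the first 940 units and the free boxes
-/

namespace Pool.Agent.MMS.SD

open Pool.Agent.MM1

theorem p1I_length : p1I.length = 940 := by decide +kernel

/-- the units `1, ..., 940` are placed; the rest of the unit square realises the roots of the machine -/
theorem phase1 : ∃ G0 : Multiset (ℝ × ℝ), Cut {((1 : ℝ), (1 : ℝ))} (units (List.range' 1 940) + G0) ∧
    RzL S00 G0 ∧ owedL S00 = 0 := by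
  have h := roots_ok (chkR_sound p1_chk) (rootR_sound _ _ _ p1_root)
  rw [p1I_length] at h
  exact ⟨_, h.1, h.2.1, h.2.2⟩

end Pool.Agent.MMS.SD
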