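import Pool.Agent.MP_94f265_co.SD.LX
import Pool.Agent.MP_94f265_co.ST.SimdDef

/-!
# Windows
-/

set_option linter.all false
set_option maxRecDepth 1000000

namespace Pool.Agent.MMS.SD

theorem win02 : Sv.chkW 15 (Sv.col 2 AS) (Sv.col 2 AE) = true := by decide +kernel

theorem win06 : Sv.chkW 15 (Sv.col 6 AS) (Sv.col 6 AE) = true := by decide +kernel

end Pool.Agent.MMS.SD
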