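import Pool.Agent.MP_94f265_co.SD.LX
import Pool.Agent.MP_94f265_co.ST.FinADef

/-!
# The last check: the sum of all parts
-/

set_option linter.all false
set_option maxRecDepth 1000000

namespace Pool.Agent.MMS.SD

noncomputable def s48 : Fi.Sta := Fi.zeroS
noncomputable def s47 : Fi.Sta := Fi.addS ES47 s48
noncomputable def s46 : Fi.Sta := Fi.addS ES46 s47
noncomputable def s45 : Fi.Sta := Fi.addS ES45 s46
noncomputable def s44 : Fi.Sta := Fi.addS ES44 s45
noncomputable def s43 : Fi.Sta := Fi.addS ES43 s44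
noncomputable def s42 : Fi.Sta := Fi.addS ES42 s43
noncomputable def s41 : Fi.Sta := Fi.addS ES41 s42
noncomputable def s40 : Fi.Sta := Fi.addS ES40 s41
noncomputable def s39 : Fi.Sta := Fi.addS ES39 s40
noncomputable def s38 : Fi.Sta := Fi.addS ES38 s39
noncomputable def s37 : Fi.Sta := Fi.addS ES37 s38
noncomputable def s36 : Fi.Sta := Fi.addS ES36 s37
noncomputable def s35 : Fi.Sta := Fi.addS ES35 s36
noncomputable def s34 : Fi.Sta := Fi.addS ES34 s35
noncomputable def s33 : Fi.Sta := Fi.addS ES33 s34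
noncomputable def s32 : Fi.Sta := Fi.addS ES32 s33
noncomputable def s31 : Fi.Sta := Fi.addS ES31 s32
noncomputable def s30 : Fi.Sta := Fi.addS ES30 s31
noncomputable def s29 : Fi.Sta := Fi.addS ES29 s30
noncomputable def s28 : Fi.Sta := Fi.addS ES28 s29
noncomputable def s27 : Fi.Sta := Fi.addS ES27 s28
noncomputable def s26 : Fi.Sta := Fi.addS ES26 s27
noncomputable def s25 : Fi.Sta := Fi.addS ES25 s26
noncomputable def s24 : Fi.Sta := Fi.addS ES24 s25
noncomputable def s23 : Fi.Sta := Fi.addS ES23 s24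
noncomputable def s22 : Fi.Sta := Fi.addS ES22 s23
noncomputable def s21 : Fi.Sta := Fi.addS ES21 s22
noncomputable def s20 : Fi.Sta := Fi.addS ES20 s21
noncomputable def s19 : Fi.Sta := Fi.addS ES19 s20
noncomputable def s18 : Fi.Sta := Fi.addS ES18 s19
noncomputable def s17 : Fi.Sta := Fi.addS ES17 s18
noncomputable def s16 : Fi.Sta := Fi.addS ES16 s17
noncomputable def s15 : Fi.Sta := Fi.addS ES15 s16
noncomputable def s14 : Fi.Sta := Fi.addS ES14 s15
noncomputable def s13 : Fi.Sta := Fi.addS ES13 s14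
noncomputable def s12 : Fi.Sta := Fi.addS ES12 s13
noncomputable def s11 : Fi.Sta := Fi.addS ES11 s12
noncomputable def s10 : Fi.Sta := Fi.addS ES10 s11
noncomputable def s09 : Fi.Sta := Fi.addS ES09 s10
noncomputable def s08 : Fi.Sta := Fi.addS ES08 s09
noncomputable def s07 : Fi.Sta := Fi.addS ES07 s08
noncomputable def s06 : Fi.Sta := Fi.addS ES06 s07
noncomputable def s05 : Fi.Sta := Fi.addS ES05 s06
noncomputable def s04 : Fi.Sta := Fi.addS ES04 s05
noncomputable def s03 : Fi.Sta := Fi.addS ES03 s04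
noncomputable def s02 : Fi.Sta := Fi.addS ES02 s03
noncomputable def s01 : Fi.Sta := Fi.addS ES01 s02
noncomputable def s00 : Fi.Sta := Fi.addS ES00 s01

theorem fin : Fi.chkS s00 = true := by decide +kernel

end Pool.Agent.MMS.SD
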