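import Pool.Agent.MP_94f265_co.SD.P00
import Pool.Agent.MP_94f265_co.SD.P01
import Pool.Agent.MP_94f265_co.SD.P02
import Pool.Agent.MP_94f265_co.SD.P03
import Pool.Agent.MP_94f265_co.SD.P04
import Pool.Agent.MP_94f265_co.SD.P05
import Pool.Agent.MP_94f265_co.SD.P06
import Pool.Agent.MP_94f265_co.SD.P07
import Pool.Agent.MP_94f265_co.SD.P08
import Pool.Agent.MP_94f265_co.SD.P09
import Pool.Agent.MP_94f265_co.SD.P10
import Pool.Agent.MP_94f265_co.SD.P11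
import Pool.Agent.MP_94f265_co.SD.P12
import Pool.Agent.MP_94f265_co.SD.P13
import Pool.Agent.MP_94f265_co.SD.P14
import Pool.Agent.MP_94f265_co.SD.P15
import Pool.Agent.MP_94f265_co.SD.P16
import Pool.Agent.MP_94f265_co.SD.P17
import Pool.Agent.MP_94f265_co.SD.P18
import Pool.Agent.MP_94f265_co.SD.P19
import Pool.Agent.MP_94f265_co.SD.P20
import Pool.Agent.MP_94f265_co.SD.P21
import Pool.Agent.MP_94f265_co.SD.P22
import Pool.Agent.MP_94f265_co.SD.P23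
import Pool.Agent.MP_94f265_co.SD.P24
import Pool.Agent.MP_94f265_co.SD.P25
import Pool.Agent.MP_94f265_co.SD.P26
import Pool.Agent.MP_94f265_co.SD.P27
import Pool.Agent.MP_94f265_co.SD.P28
import Pool.Agent.MP_94f265_co.SD.P29
import Pool.Agent.MP_94f265_co.SD.P30
import Pool.Agent.MP_94f265_co.SD.P31
import Pool.Agent.MP_94f265_co.SD.P32
import Pool.Agent.MP_94f265_co.SD.P33
import Pool.Agent.MP_94f265_co.SD.P34
import Pool.Agent.MP_94f265_co.SD.P35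
import Pool.Agent.MP_94f265_co.SD.P36
import Pool.Agent.MP_94f265_co.SD.P37
import Pool.Agent.MP_94f265_co.SD.P38
import Pool.Agent.MP_94f265_co.SD.P39
import Pool.Agent.MP_94f265_co.SD.P40
import Pool.Agent.MP_94f265_co.SD.P41
import Pool.Agent.MP_94f265_co.SD.P42
import Pool.Agent.MP_94f265_co.SD.P43
import Pool.Agent.MP_94f265_co.SD.P44
import Pool.Agent.MP_94f265_co.SD.P45
import Pool.Agent.MP_94f265_co.SD.P46
import Pool.Agent.MP_94f265_co.SD.P47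
import Pool.Agent.MP_94f265_co.SD.W0
import Pool.Agent.MP_94f265_co.SD.W1
import Pool.Agent.MP_94f265_co.SD.W2
import Pool.Agent.MP_94f265_co.SD.W3
import Pool.Agent.MP_94f265_co.SD.Z
import Pool.Agent.MP_94f265_co.SD.P1
import Pool.Agent.MP_94f265_co.ST.Asm
import Pool.Agent.MP_94f265_co.ST.FinE

/-!
# Assembly of the computed start
-/

set_option linter.all false
set_option maxRecDepth 1000000

namespace Pool.Agent.MMS.SD

open Pool.Agent.MM1 Pool.Agent.MM2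

theorem seg48 : Seg S48 [] [] [] (Fi.PS s48) := Seg.nil _ Fi.PS_zero

theorem seg47 : Seg S47 [] [LS47]
    [LE47] (Fi.PS s47) :=
  Seg.cons (by decide) P47.ok (Fi.PS_cf HS47 ES47) (Fi.PS_add ES47 s48) seg48

theorem seg46 : Seg S46 [] [LS46, LS47]
    [LE46, LE47] (Fi.PS s46) :=
  Seg.cons (by decide) P46.ok (Fi.PS_cf HS46 ES46) (Fi.PS_add ES46 s47) seg47

theorem seg45 : Seg S45 [] [LS45, LS46, LS47]
    [LE45, LE46, LE47] (Fi.PS s45) :=
  Seg.cons (by decide) P45.ok (Fi.PS_cf HS45 ES45) (Fi.PS_add ES45 s46) seg46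

theorem seg44 : Seg S44 [] [LS44, LS45, LS46, LS47]
    [LE44, LE45, LE46, LE47] (Fi.PS s44) :=
  Seg.cons (by decide) P44.ok (Fi.PS_cf HS44 ES44) (Fi.PS_add ES44 s45) seg45

theorem seg43 : Seg S43 [] [LS43, LS44, LS45, LS46, LS47]
    [LE43, LE44, LE45, LE46, LE47] (Fi.PS s43) :=
  Seg.cons (by decide) P43.ok (Fi.PS_cf HS43 ES43) (Fi.PS_add ES43 s44) seg44

theorem seg42 : Seg S42 [] [LS42, LS43, LS44, LS45, LS46, LS47]
    [LE42, LE43, LE44, LE45, LE46, LE47] (Fi.PS s42) :=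
  Seg.cons (by decide) P42.ok (Fi.PS_cf HS42 ES42) (Fi.PS_add ES42 s43) seg43

theorem seg41 : Seg S41 [] [LS41, LS42, LS43, LS44, LS45, LS46, LS47]
    [LE41, LE42, LE43, LE44, LE45, LE46, LE47] (Fi.PS s41) :=
  Seg.cons (by decide) P41.ok (Fi.PS_cf HS41 ES41) (Fi.PS_add ES41 s42) seg42

theorem seg40 : Seg S40 [] [LS40, LS41, LS42, LS43, LS44, LS45, LS46, LS47]
    [LE40, LE41, LE42, LE43, LE44, LE45, LE46, LE47] (Fi.PS s40) :=
  Seg.cons (by decide) P40.ok (Fi.PS_cf HS40 ES40) (Fi.PS_add ES40 s41) seg41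

theorem seg39 : Seg S39 [] [LS39, LS40, LS41, LS42, LS43, LS44, LS45, LS46, LS47]
    [LE39, LE40, LE41, LE42, LE43, LE44, LE45, LE46, LE47] (Fi.PS s39) :=
  Seg.cons (by decide) P39.ok (Fi.PS_cf HS39 ES39) (Fi.PS_add ES39 s40) seg40

theorem seg38 : Seg S38 [] [LS38, LS39, LS40, LS41, LS42, LS43, LS44, LS45, LS46, LS47]
    [LE38, LE39, LE40, LE41, LE42, LE43, LE44, LE45, LE46, LE47] (Fi.PS s38) :=
  Seg.cons (by decide) P38.ok (Fi.PS_cf HS38 ES38) (Fi.PS_add ES38 s39) seg39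

theorem seg37 : Seg S37 [] [LS37, LS38, LS39, LS40, LS41, LS42, LS43, LS44, LS45, LS46, LS47]
    [LE37, LE38, LE39, LE40, LE41, LE42, LE43, LE44, LE45, LE46, LE47] (Fi.PS s37) :=
  Seg.cons (by decide) P37.ok (Fi.PS_cf HS37 ES37) (Fi.PS_add ES37 s38) seg38

theorem seg36 : Seg S36 [] [LS36, LS37, LS38, LS39, LS40, LS41, LS42, LS43, LS44, LS45, LS46, LS47]
    [LE36, LE37, LE38, LE39, LE40, LE41, LE42, LE43, LE44, LE45, LE46, LE47] (Fi.PS s36) :=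
  Seg.cons (by decide) P36.ok (Fi.PS_cf HS36 ES36) (Fi.PS_add ES36 s37) seg37

theorem seg35 : Seg S35 [] [LS35, LS36, LS37, LS38, LS39, LS40, LS41, LS42, LS43, LS44, LS45, LS46, LS47]
    [LE35, LE36, LE37, LE38, LE39, LE40, LE41, LE42, LE43, LE44, LE45, LE46, LE47] (Fi.PS s35) :=
  Seg.cons (by decide) P35.ok (Fi.PS_cf HS35 ES35) (Fi.PS_add ES35 s36) seg36

theorem seg34 : Seg S34 [] [LS34, LS35, LS36, LS37, LS38, LS39, LS40, LS41, LS42, LS43, LS44, LS45, LS46, LS47]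
    [LE34, LE35, LE36, LE37, LE38, LE39, LE40, LE41, LE42, LE43, LE44, LE45, LE46, LE47] (Fi.PS s34) :=
  Seg.cons (by decide) P34.ok (Fi.PS_cf HS34 ES34) (Fi.PS_add ES34 s35) seg35

theorem seg33 : Seg S33 [] [LS33, LS34, LS35, LS36, LS37, LS38, LS39, LS40, LS41, LS42, LS43, LS44, LS45, LS46, LS47]
    [LE33, LE34, LE35, LE36, LE37, LE38, LE39, LE40, LE41, LE42, LE43, LE44, LE45, LE46, LE47] (Fi.PS s33) :=
  Seg.cons (by decide) P33.ok (Fi.PS_cf HS33 ES33) (Fi.PS_add ES33 s34) seg34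

theorem seg32 : Seg S32 [] [LS32, LS33, LS34, LS35, LS36, LS37, LS38, LS39, LS40, LS41, LS42, LS43, LS44, LS45, LS46, LS47]
    [LE32, LE33, LE34, LE35, LE36, LE37, LE38, LE39, LE40, LE41, LE42, LE43, LE44, LE45, LE46, LE47] (Fi.PS s32) :=
  Seg.cons (by decide) P32.ok (Fi.PS_cf HS32 ES32) (Fi.PS_add ES32 s33) seg33

theorem seg31 : Seg S31 [] [LS31, LS32, LS33, LS34, LS35, LS36, LS37, LS38, LS39, LS40, LS41, LS42, LS43, LS44, LS45, LS46, LS47]
    [LE31, LE32, LE33, LE34, LE35, LE36, LE37, LE38, LE39, LE40, LE41, LE42, LE43, LE44, LE45, LE46, LE47] (Fi.PS s31) :=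
  Seg.cons (by decide) P31.ok (Fi.PS_cf HS31 ES31) (Fi.PS_add ES31 s32) seg32

theorem seg30 : Seg S30 [] [LS30, LS31, LS32, LS33, LS34, LS35, LS36, LS37, LS38, LS39, LS40, LS41, LS42, LS43, LS44, LS45, LS46, LS47]
    [LE30, LE31, LE32, LE33, LE34, LE35, LE36, LE37, LE38, LE39, LE40, LE41, LE42, LE43, LE44, LE45, LE46, LE47] (Fi.PS s30) :=
  Seg.cons (by decide) P30.ok (Fi.PS_cf HS30 ES30) (Fi.PS_add ES30 s31) seg31

theorem seg29 : Seg S29 [] [LS29, LS30, LS31, LS32, LS33, LS34, LS35, LS36, LS37, LS38, LS39, LS40, LS41, LS42, LS43, LS44, LS45, LS46, LS47]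
    [LE29, LE30, LE31, LE32, LE33, LE34, LE35, LE36, LE37, LE38, LE39, LE40, LE41, LE42, LE43, LE44, LE45, LE46, LE47] (Fi.PS s29) :=
  Seg.cons (by decide) P29.ok (Fi.PS_cf HS29 ES29) (Fi.PS_add ES29 s30) seg30

theorem seg28 : Seg S28 [] [LS28, LS29, LS30, LS31, LS32, LS33, LS34, LS35, LS36, LS37, LS38, LS39, LS40, LS41, LS42, LS43, LS44, LS45, LS46, LS47]
    [LE28, LE29, LE30, LE31, LE32, LE33, LE34, LE35, LE36, LE37, LE38, LE39, LE40, LE41, LE42, LE43, LE44, LE45, LE46, LE47] (Fi.PS s28) :=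
  Seg.cons (by decide) P28.ok (Fi.PS_cf HS28 ES28) (Fi.PS_add ES28 s29) seg29

theorem seg27 : Seg S27 [] [LS27, LS28, LS29, LS30, LS31, LS32, LS33, LS34, LS35, LS36, LS37, LS38, LS39, LS40, LS41, LS42, LS43, LS44, LS45, LS46, LS47]
    [LE27, LE28, LE29, LE30, LE31, LE32, LE33, LE34, LE35, LE36, LE37, LE38, LE39, LE40, LE41, LE42, LE43, LE44, LE45, LE46, LE47] (Fi.PS s27) :=
  Seg.cons (by decide) P27.ok (Fi.PS_cf HS27 ES27) (Fi.PS_add ES27 s28) seg28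

theorem seg26 : Seg S26 [] [LS26, LS27, LS28, LS29, LS30, LS31, LS32, LS33, LS34, LS35, LS36, LS37, LS38, LS39, LS40, LS41, LS42, LS43, LS44, LS45, LS46, LS47]
    [LE26, LE27, LE28, LE29, LE30, LE31, LE32, LE33, LE34, LE35, LE36, LE37, LE38, LE39, LE40, LE41, LE42, LE43, LE44, LE45, LE46, LE47] (Fi.PS s26) :=
  Seg.cons (by decide) P26.ok (Fi.PS_cf HS26 ES26) (Fi.PS_add ES26 s27) seg27

theorem seg25 : Seg S25 [] [LS25, LS26, LS27, LS28, LS29, LS30, LS31, LS32, LS33, LS34, LS35, LS36, LS37, LS38, LS39, LS40, LS41, LS42, LS43, LS44, LS45, LS46, LS47]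
    [LE25, LE26, LE27, LE28, LE29, LE30, LE31, LE32, LE33, LE34, LE35, LE36, LE37, LE38, LE39, LE40, LE41, LE42, LE43, LE44, LE45, LE46, LE47] (Fi.PS s25) :=
  Seg.cons (by decide) P25.ok (Fi.PS_cf HS25 ES25) (Fi.PS_add ES25 s26) seg26

theorem seg24 : Seg S24 [] [LS24, LS25, LS26, LS27, LS28, LS29, LS30, LS31, LS32, LS33, LS34, LS35, LS36, LS37, LS38, LS39, LS40, LS41, LS42, LS43, LS44, LS45, LS46, LS47]
    [LE24, LE25, LE26, LE27, LE28, LE29, LE30, LE31, LE32, LE33, LE34, LE35, LE36, LE37, LE38, LE39, LE40, LE41, LE42, LE43, LE44, LE45, LE46, LE47] (Fi.PS s24) :=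
  Seg.cons (by decide) P24.ok (Fi.PS_cf HS24 ES24) (Fi.PS_add ES24 s25) seg25

theorem seg23 : Seg S23 [] [LS23, LS24, LS25, LS26, LS27, LS28, LS29, LS30, LS31, LS32, LS33, LS34, LS35, LS36, LS37, LS38, LS39, LS40, LS41, LS42, LS43, LS44, LS45, LS46, LS47]
    [LE23, LE24, LE25, LE26, LE27, LE28, LE29, LE30, LE31, LE32, LE33, LE34, LE35, LE36, LE37, LE38, LE39, LE40, LE41, LE42, LE43, LE44, LE45, LE46, LE47] (Fi.PS s23) :=
  Seg.cons (by decide) P23.ok (Fi.PS_cf HS23 ES23) (Fi.PS_add ES23 s24) seg24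

theorem seg22 : Seg S22 [] [LS22, LS23, LS24, LS25, LS26, LS27, LS28, LS29, LS30, LS31, LS32, LS33, LS34, LS35, LS36, LS37, LS38, LS39, LS40, LS41, LS42, LS43, LS44, LS45, LS46, LS47]
    [LE22, LE23, LE24, LE25, LE26, LE27, LE28, LE29, LE30, LE31, LE32, LE33, LE34, LE35, LE36, LE37, LE38, LE39, LE40, LE41, LE42, LE43, LE44, LE45, LE46, LE47] (Fi.PS s22) :=
  Seg.cons (by decide) P22.ok (Fi.PS_cf HS22 ES22) (Fi.PS_add ES22 s23) seg23

theorem seg21 : Seg S21 [] [LS21, LS22, LS23, LS24, LS25, LS26, LS27, LS28, LS29, LS30, LS31, LS32, LS33, LS34, LS35, LS36, LS37, LS38, LS39, LS40, LS41, LS42, LS43, LS44, LS45, LS46, LS47]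
    [LE21, LE22, LE23, LE24, LE25, LE26, LE27, LE28, LE29, LE30, LE31, LE32, LE33, LE34, LE35, LE36, LE37, LE38, LE39, LE40, LE41, LE42, LE43, LE44, LE45, LE46, LE47] (Fi.PS s21) :=
  Seg.cons (by decide) P21.ok (Fi.PS_cf HS21 ES21) (Fi.PS_add ES21 s22) seg22

theorem seg20 : Seg S20 [] [LS20, LS21, LS22, LS23, LS24, LS25, LS26, LS27, LS28, LS29, LS30, LS31, LS32, LS33, LS34, LS35, LS36, LS37, LS38, LS39, LS40, LS41, LS42, LS43, LS44, LS45, LS46, LS47]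
    [LE20, LE21, LE22, LE23, LE24, LE25, LE26, LE27, LE28, LE29, LE30, LE31, LE32, LE33, LE34, LE35, LE36, LE37, LE38, LE39, LE40, LE41, LE42, LE43, LE44, LE45, LE46, LE47] (Fi.PS s20) :=
  Seg.cons (by decide) P20.ok (Fi.PS_cf HS20 ES20) (Fi.PS_add ES20 s21) seg21

theorem seg19 : Seg S19 [] [LS19, LS20, LS21, LS22, LS23, LS24, LS25, LS26, LS27, LS28, LS29, LS30, LS31, LS32, LS33, LS34, LS35, LS36, LS37, LS38, LS39, LS40, LS41, LS42, LS43, LS44, LS45, LS46, LS47]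
    [LE19, LE20, LE21, LE22, LE23, LE24, LE25, LE26, LE27, LE28, LE29, LE30, LE31, LE32, LE33, LE34, LE35, LE36, LE37, LE38, LE39, LE40, LE41, LE42, LE43, LE44, LE45, LE46, LE47] (Fi.PS s19) :=
  Seg.cons (by decide) P19.ok (Fi.PS_cf HS19 ES19) (Fi.PS_add ES19 s20) seg20

theorem seg18 : Seg S18 [] [LS18, LS19, LS20, LS21, LS22, LS23, LS24, LS25, LS26, LS27, LS28, LS29, LS30, LS31, LS32, LS33, LS34, LS35, LS36, LS37, LS38, LS39, LS40, LS41, LS42, LS43, LS44, LS45, LS46, LS47]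
    [LE18, LE19, LE20, LE21, LE22, LE23, LE24, LE25, LE26, LE27, LE28, LE29, LE30, LE31, LE32, LE33, LE34, LE35, LE36, LE37, LE38, LE39, LE40, LE41, LE42, LE43, LE44, LE45, LE46, LE47] (Fi.PS s18) :=
  Seg.cons (by decide) P18.ok (Fi.PS_cf HS18 ES18) (Fi.PS_add ES18 s19) seg19

theorem seg17 : Seg S17 [] [LS17, LS18, LS19, LS20, LS21, LS22, LS23, LS24, LS25, LS26, LS27, LS28, LS29, LS30, LS31, LS32, LS33, LS34, LS35, LS36, LS37, LS38, LS39, LS40, LS41, LS42, LS43, LS44, LS45, LS46, LS47]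
    [LE17, LE18, LE19, LE20, LE21, LE22, LE23, LE24, LE25, LE26, LE27, LE28, LE29, LE30, LE31, LE32, LE33, LE34, LE35, LE36, LE37, LE38, LE39, LE40, LE41, LE42, LE43, LE44, LE45, LE46, LE47] (Fi.PS s17) :=
  Seg.cons (by decide) P17.ok (Fi.PS_cf HS17 ES17) (Fi.PS_add ES17 s18) seg18

theorem seg16 : Seg S16 [] [LS16, LS17, LS18, LS19, LS20, LS21, LS22, LS23, LS24, LS25, LS26, LS27, LS28, LS29, LS30, LS31, LS32, LS33, LS34, LS35, LS36, LS37, LS38, LS39, LS40, LS41, LS42, LS43, LS44, LS45, LS46, LS47]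
    [LE16, LE17, LE18, LE19, LE20, LE21, LE22, LE23, LE24, LE25, LE26, LE27, LE28, LE29, LE30, LE31, LE32, LE33, LE34, LE35, LE36, LE37, LE38, LE39, LE40, LE41, LE42, LE43, LE44, LE45, LE46, LE47] (Fi.PS s16) :=
  Seg.cons (by decide) P16.ok (Fi.PS_cf HS16 ES16) (Fi.PS_add ES16 s17) seg17

theorem seg15 : Seg S15 [] [LS15, LS16, LS17, LS18, LS19, LS20, LS21, LS22, LS23, LS24, LS25, LS26, LS27, LS28, LS29, LS30, LS31, LS32, LS33, LS34, LS35, LS36, LS37, LS38, LS39, LS40, LS41, LS42, LS43, LS44, LS45, LS46, LS47]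
    [LE15, LE16, LE17, LE18, LE19, LE20, LE21, LE22, LE23, LE24, LE25, LE26, LE27, LE28, LE29, LE30, LE31, LE32, LE33, LE34, LE35, LE36, LE37, LE38, LE39, LE40, LE41, LE42, LE43, LE44, LE45, LE46, LE47] (Fi.PS s15) :=
  Seg.cons (by decide) P15.ok (Fi.PS_cf HS15 ES15) (Fi.PS_add ES15 s16) seg16

theorem seg14 : Seg S14 [] [LS14, LS15, LS16, LS17, LS18, LS19, LS20, LS21, LS22, LS23, LS24, LS25, LS26, LS27, LS28, LS29, LS30, LS31, LS32, LS33, LS34, LS35, LS36, LS37, LS38, LS39, LS40, LS41, LS42, LS43, LS44, LS45, LS46, LS47]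
    [LE14, LE15, LE16, LE17, LE18, LE19, LE20, LE21, LE22, LE23, LE24, LE25, LE26, LE27, LE28, LE29, LE30, LE31, LE32, LE33, LE34, LE35, LE36, LE37, LE38, LE39, LE40, LE41, LE42, LE43, LE44, LE45, LE46, LE47] (Fi.PS s14) :=
  Seg.cons (by decide) P14.ok (Fi.PS_cf HS14 ES14) (Fi.PS_add ES14 s15) seg15

theorem seg13 : Seg S13 [] [LS13, LS14, LS15, LS16, LS17, LS18, LS19, LS20, LS21, LS22, LS23, LS24, LS25, LS26, LS27, LS28, LS29, LS30, LS31, LS32, LS33, LS34, LS35, LS36, LS37, LS38, LS39, LS40, LS41, LS42, LS43, LS44, LS45, LS46, LS47]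
    [LE13, LE14, LE15, LE16, LE17, LE18, LE19, LE20, LE21, LE22, LE23, LE24, LE25, LE26, LE27, LE28, LE29, LE30, LE31, LE32, LE33, LE34, LE35, LE36, LE37, LE38, LE39, LE40, LE41, LE42, LE43, LE44, LE45, LE46, LE47] (Fi.PS s13) :=
  Seg.cons (by decide) P13.ok (Fi.PS_cf HS13 ES13) (Fi.PS_add ES13 s14) seg14

theorem seg12 : Seg S12 [] [LS12, LS13, LS14, LS15, LS16, LS17, LS18, LS19, LS20, LS21, LS22, LS23, LS24, LS25, LS26, LS27, LS28, LS29, LS30, LS31, LS32, LS33, LS34, LS35, LS36, LS37, LS38, LS39, LS40, LS41, LS42, LS43, LS44, LS45, LS46, LS47]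
    [LE12, LE13, LE14, LE15, LE16, LE17, LE18, LE19, LE20, LE21, LE22, LE23, LE24, LE25, LE26, LE27, LE28, LE29, LE30, LE31, LE32, LE33, LE34, LE35, LE36, LE37, LE38, LE39, LE40, LE41, LE42, LE43, LE44, LE45, LE46, LE47] (Fi.PS s12) :=
  Seg.cons (by decide) P12.ok (Fi.PS_cf HS12 ES12) (Fi.PS_add ES12 s13) seg13

theorem seg11 : Seg S11 [] [LS11, LS12, LS13, LS14, LS15, LS16, LS17, LS18, LS19, LS20, LS21, LS22, LS23, LS24, LS25, LS26, LS27, LS28, LS29, LS30, LS31, LS32, LS33, LS34, LS35, LS36, LS37, LS38, LS39, LS40, LS41, LS42, LS43, LS44, LS45, LS46, LS47]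
    [LE11, LE12, LE13, LE14, LE15, LE16, LE17, LE18, LE19, LE20, LE21, LE22, LE23, LE24, LE25, LE26, LE27, LE28, LE29, LE30, LE31, LE32, LE33, LE34, LE35, LE36, LE37, LE38, LE39, LE40, LE41, LE42, LE43, LE44, LE45, LE46, LE47] (Fi.PS s11) :=
  Seg.cons (by decide) P11.ok (Fi.PS_cf HS11 ES11) (Fi.PS_add ES11 s12) seg12

theorem seg10 : Seg S10 [] [LS10, LS11, LS12, LS13, LS14, LS15, LS16, LS17, LS18, LS19, LS20, LS21, LS22, LS23, LS24, LS25, LS26, LS27, LS28, LS29, LS30, LS31, LS32, LS33, LS34, LS35, LS36, LS37, LS38, LS39, LS40, LS41, LS42, LS43, LS44, LS45, LS46, LS47]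
    [LE10, LE11, LE12, LE13, LE14, LE15, LE16, LE17, LE18, LE19, LE20, LE21, LE22, LE23, LE24, LE25, LE26, LE27, LE28, LE29, LE30, LE31, LE32, LE33, LE34, LE35, LE36, LE37, LE38, LE39, LE40, LE41, LE42, LE43, LE44, LE45, LE46, LE47] (Fi.PS s10) :=
  Seg.cons (by decide) P10.ok (Fi.PS_cf HS10 ES10) (Fi.PS_add ES10 s11) seg11

theorem seg09 : Seg S09 [] [LS09, LS10, LS11, LS12, LS13, LS14, LS15, LS16, LS17, LS18, LS19, LS20, LS21, LS22, LS23, LS24, LS25, LS26, LS27, LS28, LS29, LS30, LS31, LS32, LS33, LS34, LS35, LS36, LS37, LS38, LS39, LS40, LS41, LS42, LS43, LS44, LS45, LS46, LS47]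
    [LE09, LE10, LE11, LE12, LE13, LE14, LE15, LE16, LE17, LE18, LE19, LE20, LE21, LE22, LE23, LE24, LE25, LE26, LE27, LE28, LE29, LE30, LE31, LE32, LE33, LE34, LE35, LE36, LE37, LE38, LE39, LE40, LE41, LE42, LE43, LE44, LE45, LE46, LE47] (Fi.PS s09) :=
  Seg.cons (by decide) P09.ok (Fi.PS_cf HS09 ES09) (Fi.PS_add ES09 s10) seg10

theorem seg08 : Seg S08 [] [LS08, LS09, LS10, LS11, LS12, LS13, LS14, LS15, LS16, LS17, LS18, LS19, LS20, LS21, LS22, LS23, LS24, LS25, LS26, LS27, LS28, LS29, LS30, LS31, LS32, LS33, LS34, LS35, LS36, LS37, LS38, LS39, LS40, LS41, LS42, LS43, LS44, LS45, LS46, LS47]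
    [LE08, LE09, LE10, LE11, LE12, LE13, LE14, LE15, LE16, LE17, LE18, LE19, LE20, LE21, LE22, LE23, LE24, LE25, LE26, LE27, LE28, LE29, LE30, LE31, LE32, LE33, LE34, LE35, LE36, LE37, LE38, LE39, LE40, LE41, LE42, LE43, LE44, LE45, LE46, LE47] (Fi.PS s08) :=
  Seg.cons (by decide) P08.ok (Fi.PS_cf HS08 ES08) (Fi.PS_add ES08 s09) seg09

theorem seg07 : Seg S07 [] [LS07, LS08, LS09, LS10, LS11, LS12, LS13, LS14, LS15, LS16, LS17, LS18, LS19, LS20, LS21, LS22, LS23, LS24, LS25, LS26, LS27, LS28, LS29, LS30, LS31, LS32, LS33, LS34, LS35, LS36, LS37, LS38, LS39, LS40, LS41, LS42, LS43, LS44, LS45, LS46, LS47]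
    [LE07, LE08, LE09, LE10, LE11, LE12, LE13, LE14, LE15, LE16, LE17, LE18, LE19, LE20, LE21, LE22, LE23, LE24, LE25, LE26, LE27, LE28, LE29, LE30, LE31, LE32, LE33, LE34, LE35, LE36, LE37, LE38, LE39, LE40, LE41, LE42, LE43, LE44, LE45, LE46, LE47] (Fi.PS s07) :=
  Seg.cons (by decide) P07.ok (Fi.PS_cf HS07 ES07) (Fi.PS_add ES07 s08) seg08

theorem seg06 : Seg S06 [] [LS06, LS07, LS08, LS09, LS10, LS11, LS12, LS13, LS14, LS15, LS16, LS17, LS18, LS19, LS20, LS21, LS22, LS23, LS24, LS25, LS26, LS27, LS28, LS29, LS30, LS31, LS32, LS33, LS34, LS35, LS36, LS37, LS38, LS39, LS40, LS41, LS42, LS43, LS44, LS45, LS46, LS47]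
    [LE06, LE07, LE08, LE09, LE10, LE11, LE12, LE13, LE14, LE15, LE16, LE17, LE18, LE19, LE20, LE21, LE22, LE23, LE24, LE25, LE26, LE27, LE28, LE29, LE30, LE31, LE32, LE33, LE34, LE35, LE36, LE37, LE38, LE39, LE40, LE41, LE42, LE43, LE44, LE45, LE46, LE47] (Fi.PS s06) :=
  Seg.cons (by decide) P06.ok (Fi.PS_cf HS06 ES06) (Fi.PS_add ES06 s07) seg07

theorem seg05 : Seg S05 [] [LS05, LS06, LS07, LS08, LS09, LS10, LS11, LS12, LS13, LS14, LS15, LS16, LS17, LS18, LS19, LS20, LS21, LS22, LS23, LS24, LS25, LS26, LS27, LS28, LS29, LS30, LS31, LS32, LS33, LS34, LS35, LS36, LS37, LS38, LS39, LS40, LS41, LS42, LS43, LS44, LS45, LS46, LS47]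
    [LE05, LE06, LE07, LE08, LE09, LE10, LE11, LE12, LE13, LE14, LE15, LE16, LE17, LE18, LE19, LE20, LE21, LE22, LE23, LE24, LE25, LE26, LE27, LE28, LE29, LE30, LE31, LE32, LE33, LE34, LE35, LE36, LE37, LE38, LE39, LE40, LE41, LE42, LE43, LE44, LE45, LE46, LE47] (Fi.PS s05) :=
  Seg.cons (by decide) P05.ok (Fi.PS_cf HS05 ES05) (Fi.PS_add ES05 s06) seg06

theorem seg04 : Seg S04 [] [LS04, LS05, LS06, LS07, LS08, LS09, LS10, LS11, LS12, LS13, LS14, LS15, LS16, LS17, LS18, LS19, LS20, LS21, LS22, LS23, LS24, LS25, LS26, LS27, LS28, LS29, LS30, LS31, LS32, LS33, LS34, LS35, LS36, LS37, LS38, LS39, LS40, LS41, LS42, LS43, LS44, LS45, LS46, LS47]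
    [LE04, LE05, LE06, LE07, LE08, LE09, LE10, LE11, LE12, LE13, LE14, LE15, LE16, LE17, LE18, LE19, LE20, LE21, LE22, LE23, LE24, LE25, LE26, LE27, LE28, LE29, LE30, LE31, LE32, LE33, LE34, LE35, LE36, LE37, LE38, LE39, LE40, LE41, LE42, LE43, LE44, LE45, LE46, LE47] (Fi.PS s04) :=
  Seg.cons (by decide) P04.ok (Fi.PS_cf HS04 ES04) (Fi.PS_add ES04 s05) seg05

theorem seg03 : Seg S03 [] [LS03, LS04, LS05, LS06, LS07, LS08, LS09, LS10, LS11, LS12, LS13, LS14, LS15, LS16, LS17, LS18, LS19, LS20, LS21, LS22, LS23, LS24, LS25, LS26, LS27, LS28, LS29, LS30, LS31, LS32, LS33, LS34, LS35, LS36, LS37, LS38, LS39, LS40, LS41, LS42, LS43, LS44, LS45, LS46, LS47]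
    [LE03, LE04, LE05, LE06, LE07, LE08, LE09, LE10, LE11, LE12, LE13, LE14, LE15, LE16, LE17, LE18, LE19, LE20, LE21, LE22, LE23, LE24, LE25, LE26, LE27, LE28, LE29, LE30, LE31, LE32, LE33, LE34, LE35, LE36, LE37, LE38, LE39, LE40, LE41, LE42, LE43, LE44, LE45, LE46, LE47] (Fi.PS s03) :=
  Seg.cons (by decide) P03.ok (Fi.PS_cf HS03 ES03) (Fi.PS_add ES03 s04) seg04

theorem seg02 : Seg S02 [] [LS02, LS03, LS04, LS05, LS06, LS07, LS08, LS09, LS10, LS11, LS12, LS13, LS14, LS15, LS16, LS17, LS18, LS19, LS20, LS21, LS22, LS23, LS24, LS25, LS26, LS27, LS28, LS29, LS30, LS31, LS32, LS33, LS34, LS35, LS36, LS37, LS38, LS39, LS40, LS41, LS42, LS43, LS44, LS45, LS46, LS47]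
    [LE02, LE03, LE04, LE05, LE06, LE07, LE08, LE09, LE10, LE11, LE12, LE13, LE14, LE15, LE16, LE17, LE18, LE19, LE20, LE21, LE22, LE23, LE24, LE25, LE26, LE27, LE28, LE29, LE30, LE31, LE32, LE33, LE34, LE35, LE36, LE37, LE38, LE39, LE40, LE41, LE42, LE43, LE44, LE45, LE46, LE47] (Fi.PS s02) :=
  Seg.cons (by decide) P02.ok (Fi.PS_cf HS02 ES02) (Fi.PS_add ES02 s03) seg03

theorem seg01 : Seg S01 [] [LS01, LS02, LS03, LS04, LS05, LS06, LS07, LS08, LS09, LS10, LS11, LS12, LS13, LS14, LS15, LS16, LS17, LS18, LS19, LS20, LS21, LS22, LS23, LS24, LS25, LS26, LS27, LS28, LS29, LS30, LS31, LS32, LS33, LS34, LS35, LS36, LS37, LS38, LS39, LS40, LS41, LS42, LS43, LS44, LS45, LS46, LS47]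
    [LE01, LE02, LE03, LE04, LE05, LE06, LE07, LE08, LE09, LE10, LE11, LE12, LE13, LE14, LE15, LE16, LE17, LE18, LE19, LE20, LE21, LE22, LE23, LE24, LE25, LE26, LE27, LE28, LE29, LE30, LE31, LE32, LE33, LE34, LE35, LE36, LE37, LE38, LE39, LE40, LE41, LE42, LE43, LE44, LE45, LE46, LE47] (Fi.PS s01) :=
  Seg.cons (by decide) P01.ok (Fi.PS_cf HS01 ES01) (Fi.PS_add ES01 s02) seg02

theorem seg00 : Seg S00 [] [LS00, LS01, LS02, LS03, LS04, LS05, LS06, LS07, LS08, LS09, LS10, LS11, LS12, LS13, LS14, LS15, LS16, LS17, LS18, LS19, LS20, LS21, LS22, LS23, LS24, LS25, LS26, LS27, LS28, LS29, LS30, LS31, LS32, LS33, LS34, LS35, LS36, LS37, LS38, LS39, LS40, LS41, LS42, LS43, LS44, LS45, LS46, LS47]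
    [LE00, LE01, LE02, LE03, LE04, LE05, LE06, LE07, LE08, LE09, LE10, LE11, LE12, LE13, LE14, LE15, LE16, LE17, LE18, LE19, LE20, LE21, LE22, LE23, LE24, LE25, LE26, LE27, LE28, LE29, LE30, LE31, LE32, LE33, LE34, LE35, LE36, LE37, LE38, LE39, LE40, LE41, LE42, LE43, LE44, LE45, LE46, LE47] (Fi.PS s00) :=
  Seg.cons (by decide) P00.ok (Fi.PS_cf HS00 ES00) (Fi.PS_add ES00 s01) seg01

theorem hw : ∀ w < 10, Sv.chkW 15 (Sv.col w AS) (Sv.col w AE) = true :=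
  win_succ (n := 9) (win_succ (n := 8) (win_succ (n := 7) (win_succ (n := 6) (win_succ (n := 5) (win_succ (n := 4) (win_succ (n := 3) (win_succ (n := 2) (win_succ (n := 1) (win_succ (n := 0) (win_zero) win00) win01) win02) win03) win04) win05) win06) win07) win08) win09

theorem hst : allPc S00 = true := by decide +kernel

theorem hXS : XS.flatten = [(1, 300000000)] := by decide +kernel

theorem hXE : XE.flatten = [(1, 941)] := by decide +kernel

theorem hlS : lenB 10 AS = true := by decide +kernel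

theorem hlE : lenB 10 AE = true := by decide +kernel

/-- The start state. -/
theorem start : ∃ Q X Y, StartOK Q X Y := by
  obtain ⟨G0, h1, h2, h3⟩ := phase1
  exact asm (XS := XS) (XE := XE) (n1 := 940) h1 h2 h3 hst seg00 (by norm_num [MM2.NN]) hXS hXE hlS hlE hw (Fi.chkS_sound fin)

end Pool.Agent.MMS.SD
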