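import Pool.Agent.MP_94f265_co.SD.L00
import Pool.Agent.MP_94f265_co.SD.L01
import Pool.Agent.MP_94f265_co.SD.L02
import Pool.Agent.MP_94f265_co.SD.L03
import Pool.Agent.MP_94f265_co.SD.L04
import Pool.Agent.MP_94f265_co.SD.L05
import Pool.Agent.MP_94f265_co.SD.L06
import Pool.Agent.MP_94f265_co.SD.L07
import Pool.Agent.MP_94f265_co.SD.L08
import Pool.Agent.MP_94f265_co.SD.L09
import Pool.Agent.MP_94f265_co.SD.L10
import Pool.Agent.MP_94f265_co.SD.L11
import Pool.Agent.MP_94f265_co.SD.L12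
import Pool.Agent.MP_94f265_co.SD.L13
import Pool.Agent.MP_94f265_co.SD.L14
import Pool.Agent.MP_94f265_co.SD.L15
import Pool.Agent.MP_94f265_co.SD.L16
import Pool.Agent.MP_94f265_co.SD.L17
import Pool.Agent.MP_94f265_co.SD.L18
import Pool.Agent.MP_94f265_co.SD.L19
import Pool.Agent.MP_94f265_co.SD.L20
import Pool.Agent.MP_94f265_co.SD.L21
import Pool.Agent.MP_94f265_co.SD.L22
import Pool.Agent.MP_94f265_co.SD.L23
import Pool.Agent.MP_94f265_co.SD.L24
import Pool.Agent.MP_94f265_co.SD.L25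
import Pool.Agent.MP_94f265_co.SD.L26
import Pool.Agent.MP_94f265_co.SD.L27
import Pool.Agent.MP_94f265_co.SD.L28
import Pool.Agent.MP_94f265_co.SD.L29
import Pool.Agent.MP_94f265_co.SD.L30
import Pool.Agent.MP_94f265_co.SD.L31
import Pool.Agent.MP_94f265_co.SD.L32
import Pool.Agent.MP_94f265_co.SD.L33
import Pool.Agent.MP_94f265_co.SD.L34
import Pool.Agent.MP_94f265_co.SD.L35
import Pool.Agent.MP_94f265_co.SD.L36
import Pool.Agent.MP_94f265_co.SD.L37
import Pool.Agent.MP_94f265_co.SD.L38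
import Pool.Agent.MP_94f265_co.SD.L39
import Pool.Agent.MP_94f265_co.SD.L40
import Pool.Agent.MP_94f265_co.SD.L41
import Pool.Agent.MP_94f265_co.SD.L42
import Pool.Agent.MP_94f265_co.SD.L43
import Pool.Agent.MP_94f265_co.SD.L44
import Pool.Agent.MP_94f265_co.SD.L45
import Pool.Agent.MP_94f265_co.SD.L46
import Pool.Agent.MP_94f265_co.SD.L47

/-!
# All sorted starts and ends
-/

set_option linter.all false
set_option maxRecDepth 1000000

namespace Pool.Agent.MMS.SD

def XS : List (List (Nat × Nat)) := [[], [], [], [], [], [], [], [], [], [(1, 0x11e1a300)]]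
def XE : List (List (Nat × Nat)) := [[(1, 0x3ad)], [], [], [], [], [], [], [], [], []]
def AS : List (List (List (Nat × Nat))) := [XS, LS00, LS01, LS02, LS03, LS04, LS05, LS06, LS07, LS08, LS09, LS10, LS11, LS12, LS13, LS14, LS15, LS16, LS17, LS18, LS19, LS20, LS21, LS22, LS23, LS24, LS25, LS26, LS27, LS28, LS29, LS30, LS31, LS32, LS33, LS34, LS35, LS36, LS37, LS38, LS39, LS40, LS41, LS42, LS43, LS44, LS45, LS46, LS47]
def AE : List (List (List (Nat × Nat))) := [XE, LE00, LE01, LE02, LE03, LE04, LE05, LE06, LE07, LE08, LE09, LE10, LE11, LE12, LE13, LE14, LE15, LE16, LE17, LE18, LE19, LE20, LE21, LE22, LE23, LE24, LE25, LE26, LE27, LE28, LE29, LE30, LE31, LE32, LE33, LE34, LE35, LE36, LE37, LE38, LE39, LE40, LE41, LE42, LE43, LE44, LE45, LE46, LE47]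

end Pool.Agent.MMS.SD
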